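import Pool.Agent.QSB.StmtsE

/-!
# Row EHM (squad QSB, MP_dc0713_gt): elements of `nH` and their weights
-/

set_option autoImplicit false

namespace Pool.Agent.QSB.H62

open Matrix Finset Pool.Agent.QSX Pool.Agent.QSN Pool.Agent.QSB

section

variable {p d k : ℕ}

theorem e_dia {n : ℕ} (c : Fin n → ℝ)
    (x : Matrix (Fin n) (Fin n) (Matrix (Fin k) (Fin k) ℝ)) (i j : Fin n) :
    (dia k c * x - x * dia k c) i j = (c i - c j) • x i j := by
  rw [Matrix.sub_apply, dia, Matrix.diagonal_mul, Matrix.mul_diagonal, Matrix.smul_mul,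
    Matrix.mul_smul, Matrix.one_mul, Matrix.mul_one, sub_smul]

theorem sg_lt {i j : Fin (2 * p + d)} (h : i < j) (hm : ¬ (Md p d i ∧ Md p d j)) :
    sg p d j < sg p d i := by
  have hi := i.2
  have hj := j.2
  rw [Fin.lt_def] at h
  by_cases h1 : Md p d i <;> by_cases h2 : Md p d j
  · exact absurd ⟨h1, h2⟩ hm
  · rw [sg_mid h1, sg_out h2, Fin.lt_def, Fin.val_rev]
    unfold Md at h1 h2
    omega
  · rw [sg_out h1, sg_mid h2, Fin.lt_def, Fin.val_rev]
    unfold Md at h1 h2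
    omega
  · rw [sg_out h1, sg_out h2, Fin.lt_def, Fin.val_rev, Fin.val_rev]
    omega

theorem md_sg {i : Fin (2 * p + d)} : Md p d (sg p d i) ↔ Md p d i := by
  by_cases h : Md p d i
  · rw [sg_mid h]
  · rw [sg_out h, md_rev]

theorem sg_inj {i j : Fin (2 * p + d)} (h : sg p d i = sg p d j) : i = j := by
  rw [← sg_sg i, h, sg_sg]

variable (𝔻 : Subalgebra ℝ (Matrix (Fin k) (Fin k) ℝ))

theorem cH_cst (hk : 0 < k) (c : (datH p d 𝔻).b) (c' : Fin (2 * p + d) → ℝ)
    (h : c.1 = cst k (2 * p + d) c') (i : Fin (2 * p + d)) :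
    cH p d hk 𝔻 i c = c' i := by
  show Pool.Agent.QSX.H10.rd hk c.1 i = c' i
  have e : Pool.Agent.QSX.H10.rd (n := 2 * p + d) hk c.1 = c' :=
    (congrArg _ h).trans (Pool.Agent.QSX.H10.rd_cst hk c')
  rw [e]

theorem diag_blk (c : Fin (2 * p + d) → ℝ)
    (x : Matrix (Fin (2 * p + d)) (Fin (2 * p + d)) (Matrix (Fin k) (Fin k) ℝ)) :
    diagonal (cst k (2 * p + d) c) * blk k (2 * p + d) x -
      blk k (2 * p + d) x * diagonal (cst k (2 * p + d) c) =
      blk k (2 * p + d) (dia k c * x - x * dia k c) := by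
  rw [map_sub, map_mul, map_mul, blk_dia]

theorem single_val (i j u v : Fin (2 * p + d)) (a : Matrix (Fin k) (Fin k) ℝ) :
    (Matrix.single i j a : Matrix (Fin (2 * p + d)) (Fin (2 * p + d))
      (Matrix (Fin k) (Fin k) ℝ)) u v = if i = u ∧ j = v then a else 0 := rfl

theorem eH_mem (hT : ∀ a ∈ 𝔻, aᵀ ∈ 𝔻) {i j : Fin (2 * p + d)} (hij : i < j)
    (hm : ¬ (Md p d i ∧ Md p d j)) {a : Matrix (Fin k) (Fin k) ℝ} (ha : a ∈ 𝔻) :
    eH p d i j a ∈ nH p d 𝔻 := by
  have hs := sg_lt hij hm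
  refine ⟨⟨fun u v => ?_, fun u v huv => ?_⟩, fun u v => ?_, fun u v hu hv => ?_⟩
  · unfold eH
    rw [Matrix.sub_apply, single_val, single_val]
    refine 𝔻.sub_mem ?_ ?_
    · split_ifs
      · exact ha
      · exact 𝔻.zero_mem
    · split_ifs
      · exact hT a ha
      · exact 𝔻.zero_mem
  · unfold eH
    rw [Matrix.sub_apply, single_val, single_val, if_neg, if_neg, sub_zero]
    · rintro ⟨rfl, rfl⟩
      exact absurd huv (not_le.2 hs)
    · rintro ⟨rfl, rfl⟩
      exact absurd huv (not_le.2 hij)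
  · unfold eH
    rw [Matrix.sub_apply, Matrix.sub_apply, single_val, single_val, single_val, single_val,
      Matrix.transpose_sub]
    have e1 : (i = sg p d v ∧ j = sg p d u) ↔ (sg p d j = u ∧ sg p d i = v) := by
      constructor
      · rintro ⟨h1, h2⟩
        exact ⟨by rw [h2, sg_sg], by rw [h1, sg_sg]⟩
      · rintro ⟨h1, h2⟩
        exact ⟨by rw [← h2, sg_sg], by rw [← h1, sg_sg]⟩
    have e2 : (sg p d j = sg p d v ∧ sg p d i = sg p d u) ↔ (i = u ∧ j = v) := by
      constructor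
      · rintro ⟨h1, h2⟩
        exact ⟨sg_inj h2, sg_inj h1⟩
      · rintro ⟨h1, h2⟩
        rw [h1, h2]
        exact ⟨rfl, rfl⟩
    rw [if_congr e1 rfl rfl, if_congr e2 rfl rfl]
    have e3 : ∀ (P : Prop) [Decidable P] (b : Matrix (Fin k) (Fin k) ℝ),
        (if P then b else 0)ᵀ = if P then bᵀ else 0 := by
      intro P _ b
      split_ifs
      · rfl
      · exact Matrix.transpose_zero
    rw [e3, e3, Matrix.transpose_transpose]
    abel
  · unfold eH
    rw [Matrix.sub_apply, single_val, single_val, if_neg, if_neg, sub_zero]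
    · rintro ⟨rfl, rfl⟩
      exact hm ⟨md_sg.1 hv, md_sg.1 hu⟩
    · rintro ⟨rfl, rfl⟩
      exact hm ⟨hu, hv⟩

theorem ehm : EhmStmt := by
  intro p d k hk 𝔻 hT
  refine ⟨fun i j hij hm a ha => ?_, fun ρ x hx hw i j hne => ?_, fun i => ?_, fun c => ?_⟩
  · refine ⟨eH_mem 𝔻 hT hij hm ha, ⟨_, eH_mem 𝔻 hT hij hm ha, rfl⟩, ?_⟩
    rintro ⟨_, c', hc', rfl⟩
    have e1 := cH_cst 𝔻 hk ⟨cst k (2 * p + d) c', c', hc', rfl⟩ c' rfl
    show diagonal (cst k (2 * p + d) c') * blk k (2 * p + d) (eH p d i j a) -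
      blk k (2 * p + d) (eH p d i j a) * diagonal (cst k (2 * p + d) c') =
      (cH p d hk 𝔻 i ⟨cst k (2 * p + d) c', c', hc', rfl⟩ -
        cH p d hk 𝔻 j ⟨cst k (2 * p + d) c', c', hc', rfl⟩) • blk k (2 * p + d) (eH p d i j a)
    rw [diag_blk, e1, e1, ← map_smul]
    congr 1
    refine Matrix.ext fun u v => ?_
    rw [e_dia, Matrix.smul_apply]
    unfold eH
    rw [Matrix.sub_apply, single_val, single_val, smul_sub, smul_sub]
    congr 1
    · by_cases h : i = u ∧ j = v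
      · rw [h.1, h.2]
      · rw [if_neg h, smul_zero, smul_zero]
    · by_cases h : sg p d j = u ∧ sg p d i = v
      · rw [← h.1, ← h.2, hc', hc']
        congr 1
        ring
      · rw [if_neg h, smul_zero, smul_zero]
  · apply LinearMap.ext
    rintro ⟨_, c', hc', rfl⟩
    have e1 := cH_cst 𝔻 hk ⟨cst k (2 * p + d) c', c', hc', rfl⟩ c' rfl
    rw [LinearMap.sub_apply, e1, e1]
    have h1 : diagonal (cst k (2 * p + d) c') * blk k (2 * p + d) x -
      blk k (2 * p + d) x * diagonal (cst k (2 * p + d) c') =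
      ρ ⟨cst k (2 * p + d) c', c', hc', rfl⟩ • blk k (2 * p + d) x :=
      hw.2 ⟨cst k (2 * p + d) c', c', hc', rfl⟩
    rw [diag_blk, ← map_smul] at h1
    have h2 := congrFun (congrFun ((blk k (2 * p + d)).injective h1) i) j
    rw [e_dia, Matrix.smul_apply] at h2
    have h3 : ((c' i - c' j) - ρ ⟨cst k (2 * p + d) c', c', hc', rfl⟩) • x i j = 0 := by
      rw [sub_smul, h2, sub_self]
    have h4 := (smul_eq_zero.1 h3).resolve_right hne
    linarith
  · apply LinearMap.ext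
    rintro ⟨_, c', hc', rfl⟩
    have e1 := cH_cst 𝔻 hk ⟨cst k (2 * p + d) c', c', hc', rfl⟩ c' rfl
    rw [LinearMap.neg_apply, e1, e1, hc']
  · let c' : Fin (2 * p + d) → ℝ := fun i =>
      if h : (i : ℕ) < p then c ⟨i, h⟩
      else if h : ((Fin.rev i : Fin (2 * p + d)) : ℕ) < p then - c ⟨Fin.rev i, h⟩ else 0
    have hc1 : ∀ (i : Fin (2 * p + d)) (h : (i : ℕ) < p), c' i = c ⟨i, h⟩ := by
      intro i h
      show (if h : (i : ℕ) < p then c ⟨i, h⟩
        else if h : ((Fin.rev i : Fin (2 * p + d)) : ℕ) < p then - c ⟨Fin.rev i, h⟩ else 0) = _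
      rw [dif_pos h]
    have hc2 : ∀ (i : Fin (2 * p + d)) (h : ((Fin.rev i : Fin (2 * p + d)) : ℕ) < p),
        ¬ (i : ℕ) < p → c' i = - c ⟨Fin.rev i, h⟩ := by
      intro i h h'
      show (if h : (i : ℕ) < p then c ⟨i, h⟩
        else if h : ((Fin.rev i : Fin (2 * p + d)) : ℕ) < p then - c ⟨Fin.rev i, h⟩ else 0) = _
      rw [dif_neg h', dif_pos h]
    have hc3 : ∀ (i : Fin (2 * p + d)), ¬ ((Fin.rev i : Fin (2 * p + d)) : ℕ) < p →
        ¬ (i : ℕ) < p → c' i = 0 := by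
      intro i h h'
      show (if h : (i : ℕ) < p then c ⟨i, h⟩
        else if h : ((Fin.rev i : Fin (2 * p + d)) : ℕ) < p then - c ⟨Fin.rev i, h⟩ else 0) = _
      rw [dif_neg h', dif_neg h]
    have hc' : ∀ i, c' (sg p d i) = - c' i := by
      intro i
      have hi := i.2
      by_cases hm : Md p d i
      · rw [sg_mid hm, hc3 i (by rw [Fin.val_rev]; unfold Md at hm; omega)
          (by unfold Md at hm; omega), neg_zero]
      · rw [sg_out hm]
        by_cases h1 : (i : ℕ) < p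
        · have h2 : ¬ ((Fin.rev i : Fin (2 * p + d)) : ℕ) < p := by
            rw [Fin.val_rev]
            omega
          have h3 : ((Fin.rev (Fin.rev i) : Fin (2 * p + d)) : ℕ) < p := by
            rw [Fin.rev_rev]
            exact h1
          rw [hc2 _ h3 h2, hc1 i h1]
          congr 2
          exact Fin.ext (by show ((Fin.rev (Fin.rev i) : Fin (2 * p + d)) : ℕ) = (i : ℕ); rw [Fin.rev_rev])
        · have h2 : ((Fin.rev i : Fin (2 * p + d)) : ℕ) < p := by
            rw [Fin.val_rev]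
            unfold Md at hm
            omega
          rw [hc1 _ h2, hc2 i h2 h1, neg_neg]
    refine ⟨⟨cst k (2 * p + d) c', c', hc', rfl⟩, fun i h => ?_⟩
    rw [cH_cst 𝔻 hk ⟨cst k (2 * p + d) c', c', hc', rfl⟩ c' rfl]
    exact hc1 i h

end

end Pool.Agent.QSB.H62
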