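import Pool.Agent.QSB.StmtsU

set_option autoImplicit false

/-! Row MNR of squad QSB (MP_dc0713_gt): an `MRB` datum has a rational basis with `NR`. -/

namespace Pool.Agent.QSB.H62

open Matrix Finset Pool.Agent.QSX Pool.Agent.QSN Pool.Agent.QSB

/-- Elements of `n` of a given weight. -/
theorem mrb_wt {X : Dat} (hX : MRB X) (ρ : X.b →ₗ[ℝ] ℝ) (x : Matrix (Fin X.m) (Fin X.m) ℝ)
    (hx : x ∈ X.n)
    (hw : ∀ c : X.b, diagonal (c : Fin X.m → ℝ) * x - x * diagonal (c : Fin X.m → ℝ) = ρ c • x) :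
    x ∈ Submodule.span ℝ (hX.e '' {l | hX.rt l = ρ}) := by
  rw [← hX.span_e, Submodule.mem_span_range_iff_exists_fun] at hx
  obtain ⟨a, ha⟩ := hx
  have key : ∀ c : X.b, ∀ t, a t * (hX.rt t c - ρ c) = 0 := by
    intro c
    have h1 : ∑ t, (a t * (hX.rt t c - ρ c)) • hX.e t = 0 := by
      have h2 := hw c
      rw [← ha, Finset.mul_sum, Finset.sum_mul, ← Finset.sum_sub_distrib, Finset.smul_sum] at h2
      have h3 : ∑ t, (a t * (hX.rt t c - ρ c)) • hX.e t =
          ∑ t, (diagonal (c : Fin X.m → ℝ) * a t • hX.e t -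
            a t • hX.e t * diagonal (c : Fin X.m → ℝ)) - ∑ t, ρ c • a t • hX.e t := by
        rw [← Finset.sum_sub_distrib]
        refine Finset.sum_congr rfl fun t _ => ?_
        rw [Matrix.mul_smul, Matrix.smul_mul, ← smul_sub, hX.wt t c, smul_smul, smul_smul,
          ← sub_smul]
        congr 1
        ring
      rw [h3, h2, sub_self]
    exact Fintype.linearIndependent_iff.mp hX.lin _ h1
  rw [← ha]
  refine Submodule.sum_mem _ fun t _ => ?_
  by_cases h0 : a t = 0
  · rw [h0, zero_smul]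
    exact Submodule.zero_mem _
  · refine Submodule.smul_mem _ _ (Submodule.subset_span ⟨t, ?_, rfl⟩)
    show hX.rt t = ρ
    refine LinearMap.ext fun c => ?_
    have h := key c t
    rcases mul_eq_zero.mp h with h | h
    · exact absurd h h0
    · exact sub_eq_zero.mp h

theorem e_mem {X : Dat} (hX : MRB X) (l : hX.ι) : hX.e l ∈ X.n := by
  rw [← hX.span_e]
  exact Submodule.subset_span ⟨l, rfl⟩

/-- The bracket of two root vectors. -/
theorem mrb_br {X : Dat} (hX : MRB X) {l k : hX.ι} (hnp : ∀ c : ℝ, hX.rt k ≠ c • hX.rt l)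
    (hbr : hX.e l * hX.e k - hX.e k * hX.e l ≠ 0) :
    ∃ t, hX.rt t = hX.rt l + hX.rt k ∧ hX.comp l = hX.comp t ∧ hX.comp k = hX.comp t := by
  classical
  obtain ⟨a₁, hpos⟩ := hX.pos
  have hmem : hX.e l * hX.e k - hX.e k * hX.e l ∈ X.n := X.lie _ (e_mem hX l) _ (e_mem hX k)
  have hw : ∀ c : X.b, diagonal (c : Fin X.m → ℝ) * (hX.e l * hX.e k - hX.e k * hX.e l) -
      (hX.e l * hX.e k - hX.e k * hX.e l) * diagonal (c : Fin X.m → ℝ) =
      (hX.rt l + hX.rt k) c • (hX.e l * hX.e k - hX.e k * hX.e l) := by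
    intro c
    set D := diagonal (c : Fin X.m → ℝ) with hD
    have h1 := hX.wt l c
    have h2 := hX.wt k c
    rw [← hD] at h1 h2
    have h3 : D * (hX.e l * hX.e k - hX.e k * hX.e l) - (hX.e l * hX.e k - hX.e k * hX.e l) * D =
        ((D * hX.e l - hX.e l * D) * hX.e k - hX.e k * (D * hX.e l - hX.e l * D)) +
        (hX.e l * (D * hX.e k - hX.e k * D) - (D * hX.e k - hX.e k * D) * hX.e l) := by
      noncomm_ring
    rw [h3, h1, h2, LinearMap.add_apply, add_smul, Matrix.smul_mul, Matrix.mul_smul,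
      Matrix.smul_mul, Matrix.mul_smul, smul_sub, smul_sub]
  have hsp := mrb_wt hX _ _ hmem hw
  have hex : ∃ t, hX.rt t = hX.rt l + hX.rt k := by
    by_contra hcon
    push Not at hcon
    have he : hX.e '' {t | hX.rt t = hX.rt l + hX.rt k} = ∅ := by
      rw [Set.image_eq_empty]
      ext t
      simpa using hcon t
    rw [he, Submodule.span_empty] at hsp
    exact hbr ((Submodule.mem_bot ℝ).1 hsp)
  obtain ⟨t, ht⟩ := hex
  have hκ : ∀ κ : hX.J → ℝ, (∀ j, 0 < κ j) → κ (hX.comp l) = κ (hX.comp t) ∧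
      κ (hX.comp k) = κ (hX.comp t) := by
    intro κ hκ
    obtain ⟨S, hS⟩ := hX.scal κ hκ
    have h1 : ∀ a, (κ (hX.comp t) - κ (hX.comp l)) * hX.rt l a =
        (κ (hX.comp k) - κ (hX.comp t)) * hX.rt k a := by
      intro a
      have h2 := hS t a
      rw [ht, LinearMap.add_apply, LinearMap.add_apply, hS l a, hS k a] at h2
      linarith
    have h3 : κ (hX.comp k) = κ (hX.comp t) := by
      by_contra hne
      have hne' : κ (hX.comp k) - κ (hX.comp t) ≠ 0 := sub_ne_zero.2 hne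
      apply hnp ((κ (hX.comp t) - κ (hX.comp l)) / (κ (hX.comp k) - κ (hX.comp t)))
      refine LinearMap.ext fun a => ?_
      rw [LinearMap.smul_apply, smul_eq_mul, div_mul_eq_mul_div, h1 a,
        mul_div_cancel_left₀ _ hne']
    have h4 := h1 a₁
    rw [h3, sub_self, zero_mul] at h4
    rcases mul_eq_zero.1 h4 with h5 | h5
    · exact ⟨by linarith, h3⟩
    · exact absurd h5 (hpos l).ne'
  have h6 := hκ (fun j => if j = hX.comp t then 2 else 1) (fun j => by
    show (0 : ℝ) < if j = hX.comp t then 2 else 1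
    split_ifs <;> norm_num)
  simp only [if_true] at h6
  refine ⟨t, ht, ?_, ?_⟩
  · by_contra hne
    rw [if_neg hne] at h6
    norm_num at h6
  · by_contra hne
    have h7 := h6.2
    rw [if_neg hne] at h7
    norm_num at h7

/-- The step up. -/
theorem mrb_climb {X : Dat} (hX : MRB X) {l : hX.ι} (h : hX.rt l ≠ hX.rt (hX.top (hX.comp l))) :
    ∃ k, (∀ c : ℝ, hX.rt k ≠ c • hX.rt l) ∧ hX.e l * hX.e k - hX.e k * hX.e l ≠ 0 := by
  by_contra hcon
  push Not at hcon
  exact hX.lin.ne_zero l (hX.climb l h (hX.e l) (Submodule.subset_span ⟨l, rfl, rfl⟩) hcon)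

theorem mnr : MnrStmt := by
  classical
  rintro X ⟨hX⟩
  obtain ⟨a₁, hpos⟩ := hX.pos
  refine ⟨⟨hX.ι, hX.fin, hX.dec, hX.e, hX.rat, hX.span_e, hX.lin, hX.rt, hX.wt, hX.sep⟩, ?_⟩
  intro l
  by_cases hfirst : ∃ l', (∀ c : ℝ, hX.rt l' ≠ c • hX.rt l) ∧ ip X (hX.rt l) (hX.rt l') ≠ 0
  · exact Or.inl hfirst
  right
  have hone : ∀ k, (∀ c : ℝ, hX.rt k ≠ c • hX.rt l) → ip X (hX.rt l) (hX.rt k) = 0 := by
    intro k hk
    by_contra hne
    exact hfirst ⟨k, hk, hne⟩
  have hrl : ip X (hX.rt l) (hX.rt l) ≠ 0 := by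
    intro h
    have h1 := ip_self_eq_zero h
    have h2 := hpos l
    rw [h1] at h2
    exact lt_irrefl _ h2
  have hcpos : ∀ k (c : ℝ), hX.rt k = c • hX.rt l → c ≠ 0 := by
    intro k c h h0
    have h2 := hpos k
    rw [h, h0, zero_smul] at h2
    exact lt_irrefl _ h2
  -- Claim A
  have hA : ∀ k, hX.comp k = hX.comp l → ∃ c : ℝ, hX.rt k = c • hX.rt l := by
    by_contra hcon
    push Not at hcon
    obtain ⟨k₀, hk₀, hk₀'⟩ := hcon
    let K : Finset hX.ι := Finset.univ.filter fun k =>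
      hX.comp k = hX.comp l ∧ ∀ c : ℝ, hX.rt k ≠ c • hX.rt l
    have hK : ∀ k, k ∈ K ↔ hX.comp k = hX.comp l ∧ ∀ c : ℝ, hX.rt k ≠ c • hX.rt l := by
      intro k
      exact ⟨fun h => (Finset.mem_filter.1 h).2, fun h => Finset.mem_filter.2 ⟨Finset.mem_univ _, h⟩⟩
    obtain ⟨k, hkK, hmax⟩ := Finset.exists_max_image K (fun k => hX.rt k a₁)
      ⟨k₀, (hK k₀).2 ⟨hk₀, hk₀'⟩⟩
    obtain ⟨hkc, hkn⟩ := (hK k).1 hkK
    by_cases htop : hX.rt k = hX.rt (hX.top (hX.comp k))
    · have hl : hX.rt l ≠ hX.rt (hX.top (hX.comp l)) := by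
        intro h
        apply hkn 1
        rw [one_smul, htop, hkc, ← h]
      obtain ⟨k', hk1, hk2⟩ := mrb_climb hX hl
      obtain ⟨t, ht, -, -⟩ := mrb_br hX hk1 hk2
      have h1 := hone k' hk1
      have h2 : ip X (hX.rt l) (hX.rt t) = 0 := by
        refine hone t fun c hc => hk1 (c - 1) ?_
        refine LinearMap.ext fun a => ?_
        have e1 := LinearMap.congr_fun hc a
        have e2 := LinearMap.congr_fun ht a
        rw [LinearMap.smul_apply, smul_eq_mul] at e1
        rw [LinearMap.add_apply] at e2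
        rw [LinearMap.smul_apply, smul_eq_mul]
        linarith
      rw [ht, ip_add_right, h1, add_zero] at h2
      exact hrl h2
    · obtain ⟨k', hk1, hk2⟩ := mrb_climb hX htop
      obtain ⟨t, ht, hc1, -⟩ := mrb_br hX hk1 hk2
      have hct : hX.comp t = hX.comp l := by rw [← hc1, hkc]
      have hgt : hX.rt k a₁ < hX.rt t a₁ := by
        rw [ht, LinearMap.add_apply]
        linarith [hpos k']
      have hprop : ∃ c : ℝ, hX.rt t = c • hX.rt l := by
        by_contra hcon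
        push Not at hcon
        have h3 := hmax t ((hK t).2 ⟨hct, hcon⟩)
        exact absurd hgt (not_lt.2 h3)
      obtain ⟨c, hc⟩ := hprop
      have hk'n : ∀ d : ℝ, hX.rt k' ≠ d • hX.rt l := by
        intro d hd
        apply hkn (c - d)
        refine LinearMap.ext fun a => ?_
        have e1 := LinearMap.congr_fun hc a
        have e2 := LinearMap.congr_fun ht a
        have e3 := LinearMap.congr_fun hd a
        rw [LinearMap.smul_apply, smul_eq_mul] at e1 e3
        rw [LinearMap.add_apply] at e2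
        rw [LinearMap.smul_apply, smul_eq_mul]
        linarith
      have h1 := hone k' hk'n
      have h2 := hone k hkn
      have h3 : ip X (hX.rt l) (hX.rt t) = 0 := by
        rw [ht, ip_add_right, h1, h2, add_zero]
      rw [hc, ip_smul_right] at h3
      rcases mul_eq_zero.1 h3 with h4 | h4
      · exact hcpos t c hc h4
      · exact hrl h4
  -- Claim B
  have hB : ∀ k, hX.comp k = hX.comp l → hX.rt k = hX.rt l := by
    intro k hk
    by_contra hne
    have hk₀ : ∃ k₀, hX.comp k₀ = hX.comp l ∧ hX.rt k₀ ≠ hX.rt (hX.top (hX.comp k₀)) := by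
      by_cases h : hX.rt l = hX.rt (hX.top (hX.comp l))
      · refine ⟨k, hk, ?_⟩
        rw [hk, ← h]
        exact hne
      · exact ⟨l, rfl, h⟩
    obtain ⟨k₀, hk0, hk0'⟩ := hk₀
    obtain ⟨k', hk1, hk2⟩ := mrb_climb hX hk0'
    obtain ⟨t, ht, hc1, hc2⟩ := mrb_br hX hk1 hk2
    obtain ⟨c', hc'⟩ := hA k' (by rw [hc2, ← hc1, hk0])
    obtain ⟨c₀, hc₀⟩ := hA k₀ hk0
    have h0 := hcpos k₀ c₀ hc₀
    apply hk1 (c' / c₀)
    rw [hc₀, smul_smul, div_mul_cancel₀ _ h0, hc']
  have hr1 := hX.rank1 l hB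
  intro l' hl'
  have h1 : ∃ c : ℝ, hX.rt l' = c • hX.rt l := by
    by_contra hcon
    push Not at hcon
    exact hl' (hone l' hcon)
  obtain ⟨c, hc⟩ := h1
  exact hr1 l' (hX.comp_rt l' l c hc)

end Pool.Agent.QSB.H62
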