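import Pool.Agent.QSB.StmtsA

/-!
# Row CS2 (squad QSB, MP_dc0713_gt): brackets in a root space
-/

set_option autoImplicit false

namespace Pool.Agent.QSB.H62

open Matrix Finset Pool.Agent.QSX Pool.Agent.QSN Pool.Agent.QSB

/-- `x ∈ n` has the weight `ρ` -/
def Wt (X : Dat) (ρ : X.b →ₗ[ℝ] ℝ) (x : Matrix (Fin X.m) (Fin X.m) ℝ) : Prop :=
  x ∈ X.n ∧ ∀ c : X.b, diagonal (c : Fin X.m → ℝ) * x - x * diagonal (c : Fin X.m → ℝ) = ρ c • x

theorem wt_span {X : Dat} (hX : MB X) (ρ : X.b →ₗ[ℝ] ℝ) {x : Matrix (Fin X.m) (Fin X.m) ℝ}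
    (hx : x ∈ Submodule.span ℝ (hX.e '' {t | hX.rt t = ρ})) : Wt X ρ x := by
  refine Submodule.span_induction (p := fun x _ => Wt X ρ x) ?_ ?_ ?_ ?_ hx
  · rintro _ ⟨t, ht, rfl⟩
    refine ⟨hX.e_mem t, fun c => ?_⟩
    have ht' : hX.rt t = ρ := ht
    rw [hX.wt t c, ht']
  · exact ⟨X.n.zero_mem, fun c => by rw [mul_zero, zero_mul, sub_zero, smul_zero]⟩
  · intro a b _ _ ha hb
    refine ⟨X.n.add_mem ha.1 hb.1, fun c => ?_⟩
    rw [smul_add, ← ha.2 c, ← hb.2 c, mul_add, add_mul]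
    abel
  · intro r a _ ha
    refine ⟨X.n.smul_mem r ha.1, fun c => ?_⟩
    rw [smul_comm, ← ha.2 c, mul_smul_comm, smul_mul_assoc, smul_sub]

theorem wt_br {X : Dat} {ρ σ : X.b →ₗ[ℝ] ℝ} {x y : Matrix (Fin X.m) (Fin X.m) ℝ}
    (hx : Wt X ρ x) (hy : Wt X σ y) : Wt X (ρ + σ) (x * y - y * x) := by
  refine ⟨X.lie _ hx.1 _ hy.1, fun c => ?_⟩
  have e1 := hx.2 c
  have e2 := hy.2 c
  generalize diagonal (c : Fin X.m → ℝ) = D at e1 e2 ⊢
  have e3 : D * x = x * D + ρ c • x := by rw [← e1]; abel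
  have e4 : D * y = y * D + σ c • y := by rw [← e2]; abel
  have e5 : D * (x * y) = x * y * D + (σ c • (x * y) + ρ c • (x * y)) := by
    rw [← mul_assoc, e3, add_mul, mul_assoc x D y, e4, mul_add, smul_mul_assoc,
      mul_smul_comm, mul_assoc]
    abel
  have e6 : D * (y * x) = y * x * D + (ρ c • (y * x) + σ c • (y * x)) := by
    rw [← mul_assoc, e4, add_mul, mul_assoc y D x, e3, mul_add, smul_mul_assoc,
      mul_smul_comm, mul_assoc]
    abel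
  rw [mul_sub, sub_mul, e5, e6, LinearMap.add_apply, add_smul, smul_sub, smul_sub]
  abel

theorem wt_zero (hwtx : WtxStmt) {X : Dat} (hX : MB X) {ρ : X.b →ₗ[ℝ] ℝ}
    {x : Matrix (Fin X.m) (Fin X.m) ℝ} (hx : Wt X ρ x) (h : ∀ t, hX.rt t ≠ ρ) : x = 0 := by
  have h1 := hwtx X hX ρ x hx.1 hx.2
  have hem : {t : hX.ι | hX.rt t = ρ} = ∅ := Set.eq_empty_iff_forall_notMem.2 fun u hu => h u hu
  rw [hem, Set.image_empty, Submodule.span_empty, Submodule.mem_bot] at h1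
  exact h1

theorem cs2 (hwtx : WtxStmt) : Cs2Stmt := by
  intro X hX l x hx y hy
  have wx := wt_span hX _ hx
  have wy := wt_span hX _ hy
  have wz := wt_br wx wy
  have e2 : hX.rt l + hX.rt l = (2 : ℝ) • hX.rt l := (two_smul ℝ _).symm
  have h3 : ∀ t, hX.rt t ≠ (3 : ℝ) • hX.rt l := by
    intro t ht
    rcases hX.ray t l 3 ht with h | h | h <;> norm_num at h
  refine ⟨?_, fun w hw => ?_, fun w hw => ?_⟩
  · rw [e2] at wz
    exact hwtx X hX _ _ wz.1 wz.2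
  · have h4 := wt_br wz (wt_span hX _ hw)
    have e3 : hX.rt l + hX.rt l + hX.rt l = (3 : ℝ) • hX.rt l := by
      rw [e2, show (3 : ℝ) = 2 + 1 by norm_num, add_smul, one_smul]
    rw [e3] at h4
    exact sub_eq_zero.1 (wt_zero hwtx hX h4 h3)
  · have h4 := wt_br wx (wt_span hX _ hw)
    have e3 : hX.rt l + (2 : ℝ) • hX.rt l = (3 : ℝ) • hX.rt l := by
      rw [show (3 : ℝ) = 1 + 2 by norm_num, add_smul, one_smul]
    rw [e3] at h4
    exact sub_eq_zero.1 (wt_zero hwtx hX h4 h3)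

end Pool.Agent.QSB.H62
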