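import Pool.Agent.QSB.StmtsX4

set_option autoImplicit false

/-! Row S43 of squad QSB (MP_dc0713_gt): `S3` implies `S4`; `RQ` for reduced data. -/

namespace Pool.Agent.QSB.H62

open Matrix Finset Pool.Agent.QSX Pool.Agent.QSB

theorem s43 : S43Stmt := by
  refine ⟨?_, ?_⟩
  · intro X h ρ hρ
    rcases h ρ hρ with h1 | h1 | h1 | h1 | h1
    · exact Or.inl h1
    · exact Or.inr (Or.inl h1)
    · exact Or.inr (Or.inr (Or.inl h1))
    · exact Or.inr (Or.inr (Or.inr (Or.inl h1)))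
    · exact Or.inr (Or.inr (Or.inr (Or.inr (Or.inl h1))))
  · intro Y hR hred
    exact ⟨hR, fun ρ β γ h1 h2 => absurd h2 (hred ρ h1)⟩

end Pool.Agent.QSB.H62
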