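import Pool.Agent.QSB.StmtsS

set_option autoImplicit false

/-! Row SCB of squad QSB (MP_dc0713_gt): the field `scal` of `MRB`. -/

namespace Pool.Agent.QSB.H62

open Matrix Finset Pool.Agent.QSX Pool.Agent.QSB

theorem scb : ScbStmt := by
  intro X R κ hκ
  let t : R.ι → X.b := fun l => tv X (R.rt l)
  let T : (R.ι → ℝ) →ₗ[ℝ] X.b := Fintype.linearCombination ℝ t
  let T' : (R.ι → ℝ) →ₗ[ℝ] X.b := Fintype.linearCombination ℝ (fun l => κ l • t l)
  have hT : ∀ c, T c = ∑ l, c l • t l := fun c => Fintype.linearCombination_apply ℝ _ c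
  have hT' : ∀ c, T' c = ∑ l, c l • (κ l • t l) := fun c => Fintype.linearCombination_apply ℝ _ c
  have key : ∀ l c, R.rt l (T' c) = κ l * R.rt l (T c) := by
    intro l c
    rw [hT, hT', map_sum, map_sum, Finset.mul_sum]
    refine Finset.sum_congr rfl fun l' _ => ?_
    rw [map_smul, map_smul, map_smul, smul_eq_mul, smul_eq_mul, smul_eq_mul]
    have e : R.rt l (t l') = ip X (R.rt l) (R.rt l') := ip_eq _ _
    rw [e]
    by_cases h : ip X (R.rt l) (R.rt l') = 0
    · rw [h]
      ring
    · rw [hκ l l' h]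
      ring
  have hsurj : LinearMap.range T = ⊤ := by
    by_contra hne
    obtain ⟨φ, hφ, hle⟩ := Submodule.exists_le_ker_of_lt_top _ (lt_top_iff_ne_top.2 hne)
    apply hφ
    have h0 : tv X φ = 0 := by
      apply R.sep
      intro l
      rw [ip_eq, ip_comm, ← ip_eq]
      have h1 : t l ∈ LinearMap.range T := by
        refine ⟨Pi.single l 1, ?_⟩
        rw [hT, Finset.sum_eq_single l]
        · rw [Pi.single_eq_same, one_smul]
        · intro b _ hb
          rw [Pi.single_eq_of_ne hb, zero_smul]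
        · intro h
          exact absurd (Finset.mem_univ l) h
      exact LinearMap.mem_ker.1 (hle h1)
    exact (tv X).map_eq_zero_iff.1 h0
  obtain ⟨g, hg⟩ := T.exists_rightInverse_of_surjective hsurj
  refine ⟨T' ∘ₗ g, fun l a => ?_⟩
  rw [LinearMap.comp_apply, key]
  have h2 : T (g a) = a := by
    have h3 := LinearMap.congr_fun hg a
    simpa using h3
  rw [h2]

end Pool.Agent.QSB.H62
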